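import Mathlib

/-!
Sparse hitting sets for ABA-free families of finite sets.
-/

set_option autoImplicit false

namespace Pool.Agent.H254Z.HD

open Finset

variable {α β ι : Type} [DecidableEq α] [LinearOrder β]

/-- The family `T` has no pattern A B A in the order given by `κ`. -/
def ABAFree (κ : α → β) (T : ι → Finset α) : Prop :=
  ∀ i j, ∀ x ∈ T i, ∀ y ∈ T j, ∀ z ∈ T i,
    x ∉ T j → y ∉ T i → z ∉ T j → κ x < κ y → κ y < κ z → False

/-- `u` is not skipped by the trace on `W` of any member. -/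
def Unsk (κ : α → β) (T : ι → Finset α) (W : Finset α) (u : α) : Prop :=
  ∀ j, u ∉ T j → (∀ b ∈ T j, b ∈ W → κ b < κ u) ∨ (∀ b ∈ T j, b ∈ W → κ u < κ b)

theorem exists_unsk {κ : α → β} {T : ι → Finset α} (hκ : Function.Injective κ)
    (h : ABAFree κ T) (W : Finset α) :
    ∀ i, (∃ v ∈ T i, v ∈ W) → ∃ u ∈ T i, u ∈ W ∧ Unsk κ T W u := by
  induction W using Finset.strongInduction with
  | H W ih =>
    rintro i ⟨v, hvi, hvW⟩
    by_cases hv : Unsk κ T W v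
    · exact ⟨v, hvi, hvW, hv⟩
    unfold Unsk at hv
    push Not at hv
    obtain ⟨k, hvk, ⟨c', hc'k, hc'W, hc'⟩, ⟨c, hck, hcW, hc⟩⟩ := hv
    have hcv : κ c < κ v := lt_of_le_of_ne hc (fun e => hvk (hκ e ▸ hck))
    have hvc' : κ v < κ c' := lt_of_le_of_ne hc' (fun e => hvk (hκ e ▸ hc'k))
    have hcne : c ≠ v := fun e => hvk (e ▸ hck)
    have hc'ne : c' ≠ v := fun e => hvk (e ▸ hc'k)
    have hex : ∃ w ∈ T i, w ∈ W.erase v := by
      by_contra hne
      push Not at hne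
      exact h k i c hck v hvi c' hc'k
        (fun hh => hne c hh (mem_erase.2 ⟨hcne, hcW⟩)) hvk
        (fun hh => hne c' hh (mem_erase.2 ⟨hc'ne, hc'W⟩)) hcv hvc'
    obtain ⟨u, hui, huW, hu⟩ := ih (W.erase v) (erase_ssubset hvW) i hex
    obtain ⟨huv, huW'⟩ := mem_erase.1 huW
    refine ⟨u, hui, huW', ?_⟩
    intro j huj
    have hce : c ∈ W.erase v := mem_erase.2 ⟨hcne, hcW⟩
    have hc'e : c' ∈ W.erase v := mem_erase.2 ⟨hc'ne, hc'W⟩
    have huk : κ c < κ u → κ u < κ c' → u ∈ T k := by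
      intro h1 h2
      by_contra hk
      rcases hu k hk with h3 | h3
      · exact absurd (h3 c' hc'k hc'e) (not_lt.2 h2.le)
      · exact absurd (h3 c hck hce) (not_lt.2 h1.le)
    by_cases hvj : v ∈ T j
    swap
    · rcases hu j huj with h1 | h1
      · exact Or.inl fun b hb hbW => h1 b hb (mem_erase.2 ⟨fun e => hvj (e ▸ hb), hbW⟩)
      · exact Or.inr fun b hb hbW => h1 b hb (mem_erase.2 ⟨fun e => hvj (e ▸ hb), hbW⟩)
    rcases hu j huj with h1 | h1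
    · rcases lt_or_gt_of_ne (fun e => huv (hκ e) : κ u ≠ κ v) with h2 | h2
      · exfalso
        have hc'j : c' ∉ T j := fun hh => absurd (h1 c' hh hc'e) (not_lt.2 (h2.trans hvc').le)
        rcases lt_trichotomy (κ c) (κ u) with h3 | h3 | h3
        · exact h k j u (huk h3 (h2.trans hvc')) v hvj c' hc'k huj hvk hc'j h2 hvc'
        · exact h k j c hck v hvj c' hc'k (hκ h3 ▸ huj) hvk hc'j hcv hvc'
        · exact h k j c hck v hvj c' hc'k
            (fun hh => absurd (h1 c hh hce) (not_lt.2 h3.le)) hvk hc'j hcv hvc'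
      · left
        intro b hb hbW
        by_cases e : b = v
        · rw [e]; exact h2
        · exact h1 b hb (mem_erase.2 ⟨e, hbW⟩)
    · rcases lt_or_gt_of_ne (fun e => huv (hκ e) : κ u ≠ κ v) with h2 | h2
      · right
        intro b hb hbW
        by_cases e : b = v
        · rw [e]; exact h2
        · exact h1 b hb (mem_erase.2 ⟨e, hbW⟩)
      · exfalso
        have hcj : c ∉ T j := fun hh => absurd (h1 c hh hce) (not_lt.2 (hcv.trans h2).le)
        rcases lt_trichotomy (κ u) (κ c') with h3 | h3 | h3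
        · exact h k j c hck v hvj u (huk (hcv.trans h2) h3) hcj hvk huj hcv h2
        · exact h k j c hck v hvj c' hc'k hcj hvk (hκ h3 ▸ huj) hcv hvc'
        · exact h k j c hck v hvj c' hc'k hcj hvk
            (fun hh => absurd (h1 c' hh hc'e) (not_lt.2 h3.le)) hcv hvc'

/-- `A` is short with respect to the family `T` on `W`. -/
def Short (κ : α → β) (T : ι → Finset α) (W : Finset α) (M : ℕ) (A : Finset α) : Prop :=
  ∀ lo ∈ A, lo ∈ W → ∀ hi ∈ A, hi ∈ W → ∃ Y : Finset α, Y.card ≤ M ∧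
    ∀ j, lo ∉ T j → hi ∉ T j → ∀ b ∈ T j, κ lo < κ b → κ b < κ hi → b ∈ Y

omit [DecidableEq α] in
theorem Short.mono {κ : α → β} {T : ι → Finset α} {W W' : Finset α} {M : ℕ} {A : Finset α}
    (h : Short κ T W M A) (hW : W' ⊆ W) : Short κ T W' M A :=
  fun lo hlo hloW hi hhi hhiW => h lo hlo (hW hloW) hi hhi (hW hhiW)

omit [DecidableEq α] in
theorem short_self {κ : α → β} {T : ι → Finset α} (h : ABAFree κ T) (W : Finset α) {M : ℕ}
    (i : ι) (hi : (T i).card ≤ M) : Short κ T W M (T i) := by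
  intro lo hlo _ hi' hhi _
  refine ⟨T i, hi, fun j h1 h2 b hb h3 h4 => ?_⟩
  by_contra hbi
  exact h i j lo hlo b hb hi' hhi h1 hbi h2 h3 h4

theorem step {κ : α → β} {T : ι → Finset α} (hκ : Function.Injective κ)
    (h : ABAFree κ T) (W : Finset α) (t : ℕ) (ht : 0 < t) :
    ∃ S ⊆ W, (∀ i, t ≤ (T i ∩ W).card → ∃ s ∈ T i, s ∈ S) ∧
      ∀ M A, Short κ T W M A → (A ∩ S).card * t ≤ 2 * M + 2 * t := by
  classical
  set U := W.filter (Unsk κ T W) with hU
  have hne : ((U.powerset).filter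
      (fun S => ∀ i, t ≤ (T i ∩ W).card → ∃ s ∈ T i, s ∈ S)).Nonempty := by
    refine ⟨U, mem_filter.2 ⟨mem_powerset_self _, fun i hi => ?_⟩⟩
    obtain ⟨v, hv⟩ : (T i ∩ W).Nonempty := card_pos.1 (lt_of_lt_of_le ht hi)
    obtain ⟨u, hu1, hu2, hu3⟩ := exists_unsk hκ h W i ⟨v, (mem_inter.1 hv).1, (mem_inter.1 hv).2⟩
    exact ⟨u, hu1, mem_filter.2 ⟨hu2, hu3⟩⟩
  obtain ⟨S, hS, hmin⟩ := exists_min_image _ Finset.card hne
  obtain ⟨hSU, hhit⟩ := mem_filter.1 hS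
  have hSU' : S ⊆ U := mem_powerset.1 hSU
  have hSW : S ⊆ W := hSU'.trans (filter_subset _ _)
  have huns : ∀ s ∈ S, Unsk κ T W s := fun s hs => (mem_filter.1 (hSU' hs)).2
  have hpriv : ∀ s ∈ S, ∃ i, t ≤ (T i ∩ W).card ∧ s ∈ T i ∧ ∀ s' ∈ S, s' ≠ s → s' ∉ T i := by
    intro s hs
    by_contra hcon
    push Not at hcon
    have hmem : S.erase s ∈ (U.powerset).filter
        (fun S => ∀ i, t ≤ (T i ∩ W).card → ∃ s ∈ T i, s ∈ S) := by
      refine mem_filter.2 ⟨mem_powerset.2 ((erase_subset _ _).trans hSU'), fun i hi => ?_⟩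
      by_cases hsi : s ∈ T i
      · obtain ⟨s', h1, h2, h3⟩ := hcon i hi hsi
        exact ⟨s', h3, mem_erase.2 ⟨h2, h1⟩⟩
      · obtain ⟨s', h1, h2⟩ := hhit i hi
        exact ⟨s', h1, mem_erase.2 ⟨fun e => hsi (e ▸ h1), h2⟩⟩
    have := hmin _ hmem
    have h2 := card_erase_lt_of_mem hs
    omega
  choose pv hpv using hpriv
  refine ⟨S, hSW, hhit, fun M A hA => ?_⟩
  rcases (A ∩ S).eq_empty_or_nonempty with he | hne'
  · simp [he]
  obtain ⟨lo, hlo, hlomin⟩ := exists_min_image _ κ hne'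
  obtain ⟨hi, hhi, hhimax⟩ := exists_max_image _ κ hne'
  obtain ⟨hloA, hloS⟩ := mem_inter.1 hlo
  obtain ⟨hhiA, hhiS⟩ := mem_inter.1 hhi
  obtain ⟨Y, hY, hYs⟩ := hA lo hloA (hSW hloS) hi hhiA (hSW hhiS)
  -- position of the private edge relative to other points of S
  have hside : ∀ s (hs : s ∈ S), ∀ s' ∈ S, ∀ b ∈ T (pv s hs), b ∈ W →
      (κ s < κ s' → κ b < κ s') ∧ (κ s' < κ s → κ s' < κ b) := by
    intro s hs s' hs' b hb hbW
    obtain ⟨-, h2, h3⟩ := hpv s hs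
    constructor
    · intro hlt
      have hne : s' ≠ s := fun e => by rw [e] at hlt; exact lt_irrefl _ hlt
      rcases huns s' hs' _ (h3 s' hs' hne) with h4 | h4
      · exact h4 b hb hbW
      · exact absurd (h4 s h2 (hSW hs)) (not_lt.2 hlt.le)
    · intro hlt
      have hne : s' ≠ s := fun e => by rw [e] at hlt; exact lt_irrefl _ hlt
      rcases huns s' hs' _ (h3 s' hs' hne) with h4 | h4
      · exact absurd (h4 s h2 (hSW hs)) (not_lt.2 hlt.le)
      · exact h4 b hb hbW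
  set J := ((A ∩ S).erase lo).erase hi with hJ
  have hJS : ∀ s ∈ J, s ∈ S ∧ κ lo < κ s ∧ κ s < κ hi := by
    intro s hs
    obtain ⟨h1, h2⟩ := mem_erase.1 hs
    obtain ⟨h3, h4⟩ := mem_erase.1 h2
    exact ⟨(mem_inter.1 h4).2, lt_of_le_of_ne (hlomin s h4) (fun e => h3 (hκ e).symm),
      lt_of_le_of_ne (hhimax s h4) (fun e => h1 (hκ e))⟩
  have hcount : J.card * t ≤ Y.card * 2 := by
    refine card_mul_le_card_mul (fun s b => ∃ hs : s ∈ S, b ∈ T (pv s hs) ∧ b ∈ W) ?_ ?_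
    · intro s hs
      obtain ⟨hsS, h1, h2⟩ := hJS s hs
      obtain ⟨h3, h4, h5⟩ := hpv s hsS
      refine h3.trans (card_le_card fun b hb => ?_)
      obtain ⟨hb1, hb2⟩ := mem_inter.1 hb
      refine (mem_bipartiteAbove _).2 ⟨?_, hsS, hb1, hb2⟩
      refine hYs _ (h5 lo hloS fun e => ?_) (h5 hi hhiS fun e => ?_) b hb1
        ((hside s hsS lo hloS b hb1 hb2).2 h1) ((hside s hsS hi hhiS b hb1 hb2).1 h2)
      · rw [e] at h1; exact lt_irrefl _ h1
      · rw [e] at h2; exact lt_irrefl _ h2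
    · intro b _
      by_contra hcon
      have h3 : 2 < (bipartiteBelow (fun s b => ∃ hs : s ∈ S, b ∈ T (pv s hs) ∧ b ∈ W) J b).card :=
        not_le.1 hcon
      obtain ⟨x, hx, y, hy, z, hz, hxy, hxz, hyz⟩ := two_lt_card.1 h3
      obtain ⟨-, hxS, hx1, hx2⟩ := (mem_bipartiteBelow _).1 hx
      obtain ⟨-, hyS, hy1, -⟩ := (mem_bipartiteBelow _).1 hy
      obtain ⟨-, hzS, hz1, -⟩ := (mem_bipartiteBelow _).1 hz
      have key : ∀ p (hp : p ∈ S) q (_ : q ∈ S) r (hr : r ∈ S), b ∈ T (pv p hp) →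
          b ∈ T (pv r hr) → κ p < κ q → κ q < κ r → False := by
        intro p hp q hq r hr h1 h2 h3 h4
        exact lt_irrefl _ (((hside p hp q hq b h1 hx2).1 h3).trans
          ((hside r hr q hq b h2 hx2).2 h4))
      have n1 : κ x ≠ κ y := fun e => hxy (hκ e)
      have n2 : κ x ≠ κ z := fun e => hxz (hκ e)
      have n3 : κ y ≠ κ z := fun e => hyz (hκ e)
      rcases lt_or_gt_of_ne n1 with a1 | a1 <;> rcases lt_or_gt_of_ne n2 with a2 | a2 <;>
        rcases lt_or_gt_of_ne n3 with a3 | a3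
      · exact key x hxS y hyS z hzS hx1 hz1 a1 a3
      · exact key x hxS z hzS y hyS hx1 hy1 a2 a3
      · exact lt_irrefl _ ((a1.trans a3).trans a2)
      · exact key z hzS x hxS y hyS hz1 hy1 a2 a1
      · exact key y hyS x hxS z hzS hy1 hz1 a1 a2
      · exact lt_irrefl _ ((a1.trans a2).trans a3)
      · exact key y hyS z hzS x hxS hy1 hx1 a3 a2
      · exact key z hzS y hyS x hxS hz1 hx1 a3 a1
  have hc1 : (A ∩ S).card ≤ J.card + 2 := by
    have e1 := pred_card_le_card_erase (s := A ∩ S) (a := lo)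
    have e2 : ((A ∩ S).erase lo).card - 1 ≤ J.card :=
      pred_card_le_card_erase (s := (A ∩ S).erase lo) (a := hi)
    omega
  calc (A ∩ S).card * t ≤ (J.card + 2) * t := Nat.mul_le_mul_right _ hc1
    _ = J.card * t + 2 * t := by ring
    _ ≤ Y.card * 2 + 2 * t := by omega
    _ ≤ 2 * M + 2 * t := by omega

/-- `A` meets both `R` and `B`. -/
def Good (R B A : Finset α) : Prop := (∃ s ∈ A, s ∈ R) ∧ ∃ s ∈ A, s ∈ B

theorem card_inter_sdiff (A W S : Finset α) :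
    (A ∩ W).card ≤ (A ∩ (W \ S)).card + (A ∩ S).card := by
  refine le_trans (card_le_card ?_) (card_union_le _ _)
  intro x hx
  obtain ⟨h1, h2⟩ := mem_inter.1 hx
  by_cases h : x ∈ S
  · exact mem_union_right _ (mem_inter.2 ⟨h1, h⟩)
  · exact mem_union_left _ (mem_inter.2 ⟨h1, mem_sdiff.2 ⟨h2, h⟩⟩)

theorem two_fam {β₂ ι₂ : Type} [LinearOrder β₂] {κ₁ : α → β} {κ₂ : α → β₂}
    {T₁ : ι → Finset α} {T₂ : ι₂ → Finset α}
    (hκ₁ : Function.Injective κ₁) (hκ₂ : Function.Injective κ₂)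
    (h₁ : ABAFree κ₁ T₁) (h₂ : ABAFree κ₂ T₂) (W : Finset α) (t D : ℕ) (ht : 0 < t)
    (c₁ : ∀ i, (T₁ i).card ≤ D * t) (c₂ : ∀ j, (T₂ j).card ≤ D * t)
    (hs : ∀ j, Short κ₁ T₁ W (D * t) (T₂ j)) :
    ∃ R B : Finset α, R ⊆ W ∧ B ⊆ W ∧ Disjoint R B ∧
      (∀ i, t + 3 * (2 * D + 2) ≤ (T₁ i ∩ W).card → Good R B (T₁ i)) ∧
      (∀ j, t + 3 * (2 * D + 2) ≤ (T₂ j ∩ W).card → Good R B (T₂ j)) := by
  have bound : ∀ n : ℕ, n * t ≤ 2 * (D * t) + 2 * t → n ≤ 2 * D + 2 := by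
    intro n hn
    have : n * t ≤ (2 * D + 2) * t := by linarith
    exact Nat.le_of_mul_le_mul_right this ht
  obtain ⟨S₁, w₁, a₁, b₁⟩ := step hκ₁ h₁ W t ht
  obtain ⟨S₂, w₂, a₂, b₂⟩ := step hκ₁ h₁ (W \ S₁) t ht
  obtain ⟨S₃, w₃, a₃, b₃⟩ := step hκ₂ h₂ ((W \ S₁) \ S₂) t ht
  obtain ⟨S₄, w₄, a₄, -⟩ := step hκ₂ h₂ (((W \ S₁) \ S₂) \ S₃) t ht
  refine ⟨S₁ ∪ S₃, S₂ ∪ S₄, ?_, ?_, ?_, ?_, ?_⟩
  · exact union_subset w₁ (w₃.trans (sdiff_subset.trans sdiff_subset))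
  · exact union_subset (w₂.trans sdiff_subset)
      (w₄.trans (sdiff_subset.trans (sdiff_subset.trans sdiff_subset)))
  · rw [disjoint_left]
    intro x hx hx'
    rcases mem_union.1 hx with h | h <;> rcases mem_union.1 hx' with h' | h'
    · exact (mem_sdiff.1 (w₂ h')).2 h
    · exact (mem_sdiff.1 (mem_sdiff.1 (mem_sdiff.1 (w₄ h')).1).1).2 h
    · exact (mem_sdiff.1 (w₃ h)).2 h'
    · exact (mem_sdiff.1 (w₄ h')).2 h
  · intro i hi
    have e1 := bound _ (b₁ _ _ (short_self h₁ W i (c₁ i)))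
    have e2 := card_inter_sdiff (T₁ i) W S₁
    obtain ⟨s, hs1, hs2⟩ := a₁ i (by omega)
    obtain ⟨s', hs1', hs2'⟩ := a₂ i (by omega)
    exact ⟨⟨s, hs1, mem_union_left _ hs2⟩, ⟨s', hs1', mem_union_left _ hs2'⟩⟩
  · intro j hj
    have e1 := bound _ (b₁ _ _ (hs j))
    have e2 := bound _ (b₂ _ _ ((hs j).mono sdiff_subset))
    have e3 := bound _ (b₃ _ _ (short_self h₂ _ j (c₂ j)))
    have f1 := card_inter_sdiff (T₂ j) W S₁
    have f2 := card_inter_sdiff (T₂ j) (W \ S₁) S₂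
    have f3 := card_inter_sdiff (T₂ j) ((W \ S₁) \ S₂) S₃
    obtain ⟨s, hs1, hs2⟩ := a₃ j (by omega)
    obtain ⟨s', hs1', hs2'⟩ := a₄ j (by omega)
    exact ⟨⟨s, hs1, mem_union_right _ hs2⟩, ⟨s', hs1', mem_union_right _ hs2'⟩⟩

end Pool.Agent.H254Z.HD
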