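import Pool.Agent.H254Z.HD.Geom

/-!
Two-colouring of the points of one cell, and of the whole plane.
-/

set_option autoImplicit false

namespace Pool.Agent.H254Z.HD

open Finset

variable {α : Type} [DecidableEq α] {P : Finset α} {X X' Y : α → ℝ} {y0 : ℝ}

/-- `R`, `B` work for the three families on the class `W`. -/
def Works {ι₁ ι₂ ι₃ : Type} (T₁ : ι₁ → Finset α) (T₂ : ι₂ → Finset α) (T₃ : ι₃ → Finset α)
    (W : Finset α) : Prop :=
  ∃ R B : Finset α, R ⊆ W ∧ B ⊆ W ∧ Disjoint R B ∧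
    (∀ i, 2200 ≤ (T₁ i ∩ W).card → Good R B (T₁ i)) ∧
    (∀ i, 2200 ≤ (T₂ i ∩ W).card → Good R B (T₂ i)) ∧
    (∀ i, 28600 ≤ (T₃ i ∩ W).card → Good R B (T₃ i))

theorem Works.swap {ι₁ ι₂ ι₃ : Type} {T₁ : ι₁ → Finset α} {T₂ : ι₂ → Finset α}
    {T₃ : ι₃ → Finset α} {W : Finset α} (h : Works T₁ T₂ T₃ W) : Works T₂ T₁ T₃ W := by
  obtain ⟨R, B, h1, h2, h3, h4, h5, h6⟩ := h
  exact ⟨R, B, h1, h2, h3, h5, h4, h6⟩

theorem classY (hinj : ∀ p q, X p = X q → Y p = Y q → p = q) (hy0 : ∀ p ∈ P, y0 ≤ Y p)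
    (F : Fam P X Y 13200) (hF : F.IsF y0) {ι₂ : Type} (T₂ : ι₂ → Finset α)
    (G : Fam P X Y 171600) (hG : G.IsG y0) {W : Finset α} (hW : ∀ t ∈ W, ∀ i, t ∉ T₂ i)
    (h : (∀ t ∈ W, ¬ F.alph 171600 t) ∨ ∀ t ∈ W, ¬ G.bet 13200 t) : Works F.T T₂ G.T W := by
  have hT : ∀ i, ¬ 2200 ≤ (T₂ i ∩ W).card := by
    intro i hi
    obtain ⟨v, hv⟩ : (T₂ i ∩ W).Nonempty := card_pos.1 (by omega)
    exact hW v (mem_inter.1 hv).2 i (mem_inter.1 hv).1
  have k1 : Function.Injective (key X Y) := key_inj hinj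
  have k2 : Function.Injective (key Y X) := key_inj fun p q e1 e2 => hinj p q e2 e1
  have cF : ∀ i, (F.T i).card ≤ 168 * 1100 := fun i => by rw [F.card]; norm_num
  have cG : ∀ i, (G.T i).card ≤ 168 * 1100 := fun i => by rw [G.card]; norm_num
  rcases h with h | h
  · obtain ⟨R, B, h1, h2, h3, h4, h5⟩ := two_fam k1 k2 (G.abaG hinj hy0 hG) (F.abaF hinj hF) W
      1100 168 (by norm_num) cG cF (short_alph hinj hy0 F hF G hG (by norm_num) h)
    exact ⟨R, B, h1, h2, h3, fun i hi => h5 i (by omega), fun i hi => absurd hi (hT i),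
      fun i hi => h4 i (by omega)⟩
  · obtain ⟨R, B, h1, h2, h3, h4, h5⟩ := two_fam k2 k1 (F.abaF hinj hF) (G.abaG hinj hy0 hG) W
      1100 168 (by norm_num) cF cG (short_bet hinj hy0 F hF G hG (by norm_num) h)
    exact ⟨R, B, h1, h2, h3, fun i hi => h4 i (by omega), fun i hi => absurd hi (hT i),
      fun i hi => h5 i (by omega)⟩

theorem card_inter_erase (A W : Finset α) (u : α) :
    (A ∩ W).card ≤ (A ∩ W.erase u).card + 1 := by
  rw [inter_erase]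
  have := pred_card_le_card_erase (s := A ∩ W) (a := u)
  omega

theorem classZ (hinj : ∀ p q, X p = X q → Y p = Y q → p = q) (hX : ∀ p, X' p = -X p)
    (hy0 : ∀ p ∈ P, y0 ≤ Y p)
    (F : Fam P X Y 13200) (hF : F.IsF y0) (F' : Fam P X' Y 13200) (hF' : F'.IsF y0)
    (G : Fam P X Y 171600) (hG : G.IsG y0) {W : Finset α}
    (hW : ∀ t ∈ W, (∃ i, t ∈ F.T i) ∧ ∃ i, t ∈ F'.T i)
    (h : ∀ t ∈ W, ¬ F'.gam (2 * 13200) t) : Works F.T F'.T G.T W := by
  have hinj' : ∀ p q, X' p = X' q → Y p = Y q → p = q := fun p q e1 e2 =>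
    hinj p q (by rw [hX, hX] at e1; linarith) e2
  by_cases hsmall : W.card < 2
  · have hT : ∀ A : Finset α, (A ∩ W).card < 2 := fun A =>
      lt_of_le_of_lt (card_le_card inter_subset_right) hsmall
    refine ⟨∅, ∅, empty_subset _, empty_subset _, disjoint_empty_left _, fun i hi => ?_,
      fun i hi => ?_, fun i hi => ?_⟩
    · have := hT (F.T i); omega
    · have := hT (F'.T i); omega
    · have := hT (G.T i); omega
  obtain ⟨u, hu, humin⟩ := exists_min_image W Y (card_pos.1 (by omega))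
  have hc := card_erase_of_mem hu
  obtain ⟨v, hv, hvmin⟩ := exists_min_image (W.erase u) Y (card_pos.1 (by omega))
  obtain ⟨hvu, hvW⟩ := mem_erase.1 hv
  have k1 : Function.Injective (key Y X) := key_inj fun p q e1 e2 => hinj p q e2 e1
  have k2 : Function.Injective (key Y X') := key_inj fun p q e1 e2 => hinj' p q e2 e1
  have cF : ∀ i, (F.T i).card ≤ 168 * 1100 := fun i => by rw [F.card]; norm_num
  have cF' : ∀ i, (F'.T i).card ≤ 168 * 1100 := fun i => by rw [F'.card]; norm_num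
  have hsub : (W.erase u).erase v ⊆ W := (erase_subset _ _).trans (erase_subset _ _)
  obtain ⟨R, B, h1, h2, h3, h4, h5⟩ := two_fam k1 k2 (F.abaF hinj hF) (F'.abaF hinj' hF')
    ((W.erase u).erase v) 1100 168 (by norm_num) cF cF'
    (fun j => (short_gam F F' (by norm_num) h j).mono hsub)
  have up : ∀ A : Finset α, Good R B A → Good (insert u R) (insert v B) A := by
    rintro A ⟨⟨s, s1, s2⟩, ⟨s', s3, s4⟩⟩
    exact ⟨⟨s, s1, mem_insert_of_mem s2⟩, ⟨s', s3, mem_insert_of_mem s4⟩⟩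
  refine ⟨insert u R, insert v B, insert_subset hu (h1.trans hsub),
    insert_subset hvW (h2.trans hsub), ?_, fun i hi => up _ (h4 i ?_), fun i hi => up _ (h5 i ?_),
    fun i hi => ⟨⟨u, ?_, mem_insert_self _ _⟩, ⟨v, ?_, mem_insert_self _ _⟩⟩⟩
  · rw [disjoint_left]
    intro x hx hx'
    rcases mem_insert.1 hx with e | e <;> rcases mem_insert.1 hx' with e' | e'
    · exact hvu (e'.symm.trans e)
    · exact (mem_erase.1 (mem_erase.1 (h2 e')).2).1 e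
    · exact (mem_erase.1 (h1 e)).1 e'
    · exact disjoint_left.1 h3 e e'
  · have e1 := card_inter_erase (F.T i) W u
    have e2 := card_inter_erase (F.T i) (W.erase u) v
    omega
  · have e1 := card_inter_erase (F'.T i) W u
    have e2 := card_inter_erase (F'.T i) (W.erase u) v
    omega
  · exact lowZ hinj hX hy0 F hF F' hF' G hG (hW u hu) humin i (by omega)
  · have e1 := card_inter_erase (G.T i) W u
    exact lowZ hinj hX hy0 F hF F' hF' G hG (hW v hvW) hvmin i (by omega)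

theorem fams_colour (hinj : ∀ p q, X p = X q → Y p = Y q → p = q) (hX : ∀ p, X' p = -X p)
    (hy0 : ∀ p ∈ P, y0 ≤ Y p)
    (F : Fam P X Y 13200) (hF : F.IsF y0) (F' : Fam P X' Y 13200) (hF' : F'.IsF y0)
    (G : Fam P X Y 171600) (hG : G.IsG y0) :
    ∃ c : α → Fin 2, (∀ i, ∃ p ∈ F.T i, ∃ q ∈ F.T i, c p ≠ c q) ∧
      (∀ i, ∃ p ∈ F'.T i, ∃ q ∈ F'.T i, c p ≠ c q) ∧
      (∀ i, ∃ p ∈ G.T i, ∃ q ∈ G.T i, c p ≠ c q) := by
  classical
  have hinj' : ∀ p q, X' p = X' q → Y p = Y q → p = q := fun p q e1 e2 =>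
    hinj p q (by rw [hX, hX] at e1; linarith) e2
  have hX' : ∀ p, X p = -X' p := fun p => by rw [hX, neg_neg]
  have hG' : (G.mirror hX).IsG y0 := hG
  let Pr : Fin 6 → α → Prop := ![
    fun t => ((∃ i, t ∈ F.T i) ∧ ∃ i, t ∈ F'.T i) ∧ ¬ F'.gam (2 * 13200) t,
    fun t => ((∃ i, t ∈ F'.T i) ∧ ∃ i, t ∈ F.T i) ∧ ¬ F.gam (2 * 13200) t,
    fun t => (∀ i, t ∉ F'.T i) ∧ ¬ F.alph 171600 t,
    fun t => (∀ i, t ∉ F'.T i) ∧ ¬ G.bet 13200 t,
    fun t => (∀ i, t ∉ F.T i) ∧ ¬ F'.alph 171600 t,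
    fun t => (∀ i, t ∉ F.T i) ∧ ¬ (G.mirror hX).bet 13200 t]
  have hex : ∀ t, ∃ k, Pr k t := by
    intro t
    by_cases h2 : ∃ i, t ∈ F'.T i
    · by_cases h1 : ∃ i, t ∈ F.T i
      · by_cases h3 : F'.gam (2 * 13200) t
        · exact ⟨1, ⟨h2, h1⟩, fun h4 => gam_excl hinj hX F hF F' hF' h4 h3⟩
        · exact ⟨0, ⟨h1, h2⟩, h3⟩
      · have h1' : ∀ i, t ∉ F.T i := fun i hi => h1 ⟨i, hi⟩
        by_cases h3 : F'.alph 171600 t
        · exact ⟨5, h1', fun h4 => alph_bet_excl hinj' hy0 F' hF' (G.mirror hX) hG' h3 h4⟩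
        · exact ⟨4, h1', h3⟩
    · have h2' : ∀ i, t ∉ F'.T i := fun i hi => h2 ⟨i, hi⟩
      by_cases h3 : F.alph 171600 t
      · exact ⟨3, h2', fun h4 => alph_bet_excl hinj hy0 F hF G hG h3 h4⟩
      · exact ⟨2, h2', h3⟩
  choose cl hcl using hex
  have hW : ∀ k, ∀ t ∈ P.filter (fun t => cl t = k), Pr k t := by
    intro k t ht
    rw [← (mem_filter.1 ht).2]
    exact hcl t
  have hworks : ∀ k, Works F.T F'.T G.T (P.filter (fun t => cl t = k)) := by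
    intro k
    fin_cases k
    · exact classZ hinj hX hy0 F hF F' hF' G hG (fun t ht => (hW 0 t ht).1)
        (fun t ht => (hW 0 t ht).2)
    · exact (classZ hinj' hX' hy0 F' hF' F hF (G.mirror hX) hG' (fun t ht => (hW 1 t ht).1)
        (fun t ht => (hW 1 t ht).2)).swap
    · exact classY hinj hy0 F hF F'.T G hG (fun t ht => (hW 2 t ht).1)
        (Or.inl fun t ht => (hW 2 t ht).2)
    · exact classY hinj hy0 F hF F'.T G hG (fun t ht => (hW 3 t ht).1)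
        (Or.inr fun t ht => (hW 3 t ht).2)
    · exact (classY hinj' hy0 F' hF' F.T (G.mirror hX) hG' (fun t ht => (hW 4 t ht).1)
        (Or.inl fun t ht => (hW 4 t ht).2)).swap
    · exact (classY hinj' hy0 F' hF' F.T (G.mirror hX) hG' (fun t ht => (hW 5 t ht).1)
        (Or.inr fun t ht => (hW 5 t ht).2)).swap
  choose R B hR hB hd h1 h2 h3 using hworks
  let c : α → Fin 2 := fun p => if p ∈ R (cl p) then 0 else 1
  have fin : ∀ k A, Good (R k) (B k) A → ∃ p ∈ A, ∃ q ∈ A, c p ≠ c q := by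
    rintro k A ⟨⟨p, p1, p2⟩, ⟨q, q1, q2⟩⟩
    have e1 : cl p = k := (mem_filter.1 (hR k p2)).2
    have e2 : cl q = k := (mem_filter.1 (hB k q2)).2
    have e3 : q ∉ R k := fun h => disjoint_left.1 (hd k) h q2
    refine ⟨p, p1, q, q1, ?_⟩
    simp only [c, e1, e2, if_pos p2, if_neg e3]
    decide
  have pig : ∀ (A : Finset α) (n : ℕ), A ⊆ P → 6 * n ≤ A.card →
      ∃ k, n ≤ (A ∩ P.filter (fun t => cl t = k)).card := by
    intro A n hA hn
    obtain ⟨k, -, hk⟩ := exists_le_card_fiber_of_mul_le_card_of_maps_to (s := A)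
      (t := (univ : Finset (Fin 6))) (f := cl) (n := n) (fun _ _ => mem_univ _) univ_nonempty
      (by simpa using hn)
    refine ⟨k, hk.trans (card_le_card fun x hx => ?_)⟩
    obtain ⟨x1, x2⟩ := mem_filter.1 hx
    exact mem_inter.2 ⟨x1, mem_filter.2 ⟨hA x1, x2⟩⟩
  refine ⟨c, fun i => ?_, fun i => ?_, fun i => ?_⟩
  · obtain ⟨k, hk⟩ := pig (F.T i) 2200 (fun p hp => (F.sub i p hp).1) (by rw [F.card])
    exact fin k _ (h1 k i hk)
  · obtain ⟨k, hk⟩ := pig (F'.T i) 2200 (fun p hp => (F'.sub i p hp).1) (by rw [F'.card])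
    exact fin k _ (h2 k i hk)
  · obtain ⟨k, hk⟩ := pig (G.T i) 28600 (fun p hp => (G.sub i p hp).1) (by rw [G.card])
    exact fin k _ (h3 k i hk)

/-- `T` lies between the open and the closed trace. -/
def Sand (P : Finset α) (X Y : α → ℝ) (n : ℕ) (a b : ℝ) (T : Finset α) : Prop :=
  (∀ p ∈ T, p ∈ P ∧ b ≤ Y p ∧ (X p - a) ^ 2 + (Y p - b) ^ 2 ≤ 1) ∧
  (∀ p ∈ P, b ≤ Y p → (X p - a) ^ 2 + (Y p - b) ^ 2 < 1 → p ∈ T) ∧ T.card = n

/-- The family of all chosen traces with centre satisfying `Q`. -/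
noncomputable def famOf (P : Finset α) (X Y : α → ℝ) (n : ℕ) (Q : ℝ → ℝ → Prop) : Fam P X Y n where
  ι := {c : ℝ × ℝ // Q c.1 c.2 ∧ ∃ T, Sand P X Y n c.1 c.2 T}
  a := fun c => c.1.1
  b := fun c => c.1.2
  T := fun c => c.2.2.choose
  func := fun i j h1 h2 => by
    have : i = j := Subtype.ext (Prod.ext h1 h2)
    rw [this]
  sub := fun c => c.2.2.choose_spec.1
  sup := fun c => c.2.2.choose_spec.2.1
  card := fun c => c.2.2.choose_spec.2.2

omit [DecidableEq α] in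
theorem nth_value (Q : Finset α) (h : α → ℝ) (n : ℕ) (hn : 0 < n) (hQ : n ≤ Q.card) :
    ∃ p ∈ Q, (Q.filter (fun q => h q < h p)).card ≤ n ∧ n ≤ (Q.filter (fun q => h q ≤ h p)).card := by
  classical
  have hne : (Q.filter (fun p => n ≤ (Q.filter (fun q => h q ≤ h p)).card)).Nonempty := by
    obtain ⟨p, hp, hmax⟩ := exists_max_image Q h (card_pos.1 (by omega))
    refine ⟨p, mem_filter.2 ⟨hp, ?_⟩⟩
    rw [filter_true_of_mem hmax]
    exact hQ
  obtain ⟨p, hp, hmin⟩ := exists_min_image _ h hne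
  obtain ⟨hp1, hp2⟩ := mem_filter.1 hp
  refine ⟨p, hp1, ?_, hp2⟩
  by_contra hc
  obtain ⟨r, hr, hmax⟩ := exists_max_image (Q.filter (fun q => h q < h p)) h
    (card_pos.1 (by omega))
  obtain ⟨r1, r2⟩ := mem_filter.1 hr
  have : n ≤ (Q.filter (fun q => h q ≤ h r)).card := by
    refine le_trans (not_le.1 hc).le (card_le_card fun q hq => ?_)
    exact mem_filter.2 ⟨(mem_filter.1 hq).1, hmax q hq⟩
  exact absurd (hmin r (mem_filter.2 ⟨r1, this⟩)) (not_le.2 r2)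

omit [DecidableEq α] in
/-- Move a unit disk in the negative `U` direction until it holds exactly `n` points. -/
theorem shrink (P : Finset α) (U V : α → ℝ) (side : α → Prop) (u v : ℝ) (n : ℕ) (hn : 0 < n)
    (hu : ∀ p ∈ P, u ≤ U p) (A : Finset α)
    (hA : ∀ p, p ∈ A ↔ p ∈ P ∧ side p ∧ (U p - u) ^ 2 + (V p - v) ^ 2 ≤ 1) (hc : n ≤ A.card) :
    ∃ u' ≤ u, ∃ T : Finset α, (∀ p ∈ T, p ∈ P ∧ side p ∧ (U p - u') ^ 2 + (V p - v) ^ 2 ≤ 1) ∧
      (∀ p ∈ P, side p → (U p - u') ^ 2 + (V p - v) ^ 2 < 1 → p ∈ T) ∧ T.card = n := by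
  classical
  set h : α → ℝ := fun p => U p - Real.sqrt (1 - (V p - v) ^ 2) with hh
  obtain ⟨p, hp, h1, h2⟩ := nth_value A h n hn hc
  obtain ⟨p1, p2, p3⟩ := (hA p).1 hp
  have hle : h p ≤ u := by
    have : U p - u ≤ Real.sqrt (1 - (V p - v) ^ 2) := Real.le_sqrt_of_sq_le (by linarith)
    simp only [hh]
    linarith
  have hsub : A.filter (fun q => h q < h p) ⊆ A.filter (fun q => h q ≤ h p) := fun q hq =>
    mem_filter.2 ⟨(mem_filter.1 hq).1, (mem_filter.1 hq).2.le⟩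
  obtain ⟨T, t1, t2, t3⟩ := exists_subsuperset_card_eq hsub h1 h2
  refine ⟨h p, hle, T, fun q hq => ?_, fun q q1 q2 q3 => t1 ?_, t3⟩
  · obtain ⟨q1, q2⟩ := mem_filter.1 (t2 hq)
    obtain ⟨q3, q4, q5⟩ := (hA q).1 q1
    refine ⟨q3, q4, ?_⟩
    have e0 : 0 ≤ 1 - (V q - v) ^ 2 := by nlinarith [sq_nonneg (U q - u)]
    have e1 : U q - h p ≤ Real.sqrt (1 - (V q - v) ^ 2) := by
      have : h q = U q - Real.sqrt (1 - (V q - v) ^ 2) := rfl
      linarith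
    have e2 : 0 ≤ U q - h p := by linarith [hu q q3]
    have e3 := (Real.le_sqrt e2 e0).1 e1
    linarith
  · have e2 : 0 ≤ U q - h p := by linarith [hu q q1]
    have e3 : U q - h p < Real.sqrt (1 - (V q - v) ^ 2) := (Real.lt_sqrt e2).2 (by linarith)
    refine mem_filter.2 ⟨(hA q).2 ⟨q1, q2, ?_⟩, ?_⟩
    · have := hu q q1
      nlinarith
    · have : h q = U q - Real.sqrt (1 - (V q - v) ^ 2) := rfl
      linarith

theorem cell_colour (hinj : ∀ p q, X p = X q → Y p = Y q → p = q) (x0 y0 : ℝ)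
    (hx : ∀ p ∈ P, x0 ≤ X p ∧ X p ≤ x0 + 1 / 2) (hy : ∀ p ∈ P, y0 ≤ Y p ∧ Y p ≤ y0 + 1 / 2) :
    ∃ c : α → Fin 2, ∀ (a b : ℝ) (A : Finset α),
      (∀ p, p ∈ A ↔ p ∈ P ∧ b ≤ Y p ∧ (X p - a) ^ 2 + (Y p - b) ^ 2 ≤ 1) → 171600 ≤ A.card →
        ∃ p ∈ A, ∃ q ∈ A, c p ≠ c q := by
  let X' : α → ℝ := fun p => -X p
  let F := famOf P X Y 13200 (fun a b => a ≤ x0 ∧ y0 < b)
  let F' := famOf P X' Y 13200 (fun a b => a ≤ -(x0 + 1 / 2) ∧ y0 < b)
  let G := famOf P X Y 171600 (fun _ b => b ≤ y0)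
  have hF : F.IsF y0 := fun i => ⟨i.2.1.2, fun p hp => i.2.1.1.trans (hx p hp).1⟩
  have hF' : F'.IsF y0 := fun i => ⟨i.2.1.2, fun p hp => i.2.1.1.trans (neg_le_neg (hx p hp).2)⟩
  have hG : G.IsG y0 := fun i => i.2.1
  obtain ⟨c, c1, c2, c3⟩ := fams_colour (X' := X') hinj (fun _ => rfl) (fun p hp => (hy p hp).1)
    F hF F' hF' G hG
  refine ⟨c, ?_⟩
  have caseF : ∀ (a b : ℝ) (A : Finset α), a ≤ x0 → y0 < b →
      (∀ p, p ∈ A ↔ p ∈ P ∧ b ≤ Y p ∧ (X p - a) ^ 2 + (Y p - b) ^ 2 ≤ 1) → 171600 ≤ A.card →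
        ∃ p ∈ A, ∃ q ∈ A, c p ≠ c q := by
    intro a b A ha hb hA hc
    obtain ⟨a', ha', T, hT⟩ := shrink P X Y (fun p => b ≤ Y p) a b 13200 (by norm_num)
      (fun p hp => ha.trans (hx p hp).1) A hA (by omega)
    let i : F.ι := ⟨(a', b), ⟨ha'.trans ha, hb⟩, T, hT⟩
    have hin : ∀ p ∈ F.T i, p ∈ A := by
      intro p hp
      obtain ⟨p1, p2, p3⟩ := F.sub i p hp
      have p4 : (X p - a') ^ 2 + (Y p - b) ^ 2 ≤ 1 := p3
      have := ha.trans (hx p p1).1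
      exact (hA p).2 ⟨p1, p2, by nlinarith⟩
    obtain ⟨p, hp, q, hq, h⟩ := c1 i
    exact ⟨p, hin p hp, q, hin q hq, h⟩
  intro a b A hA hc
  rcases le_or_gt b y0 with hb | hb
  · obtain ⟨b', hb', T, t1, t2, t3⟩ := shrink P Y X (fun _ => True) b a 171600 (by norm_num)
      (fun p hp => hb.trans (hy p hp).1) A (fun p => by
        rw [hA]
        constructor
        · rintro ⟨p1, -, p3⟩
          exact ⟨p1, trivial, by linarith⟩
        · rintro ⟨p1, -, p3⟩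
          exact ⟨p1, hb.trans (hy p p1).1, by linarith⟩) hc
    have hS : Sand P X Y 171600 a b' T := by
      refine ⟨fun p hp => ?_, fun p p1 _ p3 => t2 p p1 trivial (by linarith), t3⟩
      obtain ⟨p1, -, p3⟩ := t1 p hp
      exact ⟨p1, (hb'.trans hb).trans (hy p p1).1, by linarith⟩
    let i : G.ι := ⟨(a, b'), hb'.trans hb, T, hS⟩
    have hin : ∀ p ∈ G.T i, p ∈ A := by
      intro p hp
      obtain ⟨p1, p2, p3⟩ := G.sub i p hp
      have p4 : (X p - a) ^ 2 + (Y p - b') ^ 2 ≤ 1 := p3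
      have := hb.trans (hy p p1).1
      exact (hA p).2 ⟨p1, this, by nlinarith⟩
    obtain ⟨p, hp, q, hq, h⟩ := c3 i
    exact ⟨p, hin p hp, q, hin q hq, h⟩
  rcases le_or_gt a x0 with ha | ha
  · exact caseF a b A ha hb hA hc
  rcases le_or_gt (x0 + 1 / 2) a with ha2 | ha2
  · obtain ⟨a', ha', T, hT⟩ := shrink P X' Y (fun p => b ≤ Y p) (-a) b 13200 (by norm_num)
      (fun p hp => neg_le_neg ((hx p hp).2.trans ha2)) A (fun p => by
        rw [hA]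
        have : (X' p - -a) ^ 2 = (X p - a) ^ 2 := by simp only [X']; ring
        rw [this]) (by omega)
    let i : F'.ι := ⟨(a', b), ⟨ha'.trans (neg_le_neg ha2), hb⟩, T, hT⟩
    have hin : ∀ p ∈ F'.T i, p ∈ A := by
      intro p hp
      obtain ⟨p1, p2, p3⟩ := F'.sub i p hp
      have p4 : (-X p - a') ^ 2 + (Y p - b) ^ 2 ≤ 1 := p3
      have := (hx p p1).2.trans ha2
      exact (hA p).2 ⟨p1, p2, by nlinarith⟩
    obtain ⟨p, hp, q, hq, h⟩ := c2 i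
    exact ⟨p, hin p hp, q, hin q hq, h⟩
  · refine caseF x0 b A le_rfl hb (fun p => ?_) hc
    rw [hA]
    constructor
    · rintro ⟨p1, p2, -⟩
      obtain ⟨e1, e2⟩ := hx p p1
      obtain ⟨e3, e4⟩ := hy p p1
      exact ⟨p1, p2, by nlinarith⟩
    · rintro ⟨p1, p2, -⟩
      obtain ⟨e1, e2⟩ := hx p p1
      obtain ⟨e3, e4⟩ := hy p p1
      exact ⟨p1, p2, by nlinarith⟩

/-- Every finite planar point set has a two-colouring in which no translate of the closed upper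
half-disk holding at least `2574000` of the points is monochromatic. -/
theorem plane_colour (P : Finset (ℝ × ℝ)) :
    ∃ c : ℝ × ℝ → Fin 2, ∀ (a b : ℝ) (A : Finset (ℝ × ℝ)),
      (∀ p, p ∈ A ↔ p ∈ P ∧ b ≤ p.2 ∧ (p.1 - a) ^ 2 + (p.2 - b) ^ 2 ≤ 1) → 2574000 ≤ A.card →
        ∃ p ∈ A, ∃ q ∈ A, c p ≠ c q := by
  classical
  let cell : ℝ × ℝ → ℤ × ℤ := fun p => (⌊2 * p.1⌋, ⌊2 * p.2⌋)
  have hc : ∀ k : ℤ × ℤ, ∃ c : ℝ × ℝ → Fin 2, ∀ (a b : ℝ) (A : Finset (ℝ × ℝ)),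
      (∀ p, p ∈ A ↔ p ∈ P.filter (fun p => cell p = k) ∧ b ≤ p.2 ∧
        (p.1 - a) ^ 2 + (p.2 - b) ^ 2 ≤ 1) → 171600 ≤ A.card → ∃ p ∈ A, ∃ q ∈ A, c p ≠ c q := by
    intro k
    refine cell_colour (X := Prod.fst) (Y := Prod.snd) (fun p q => Prod.ext) (k.1 / 2) (k.2 / 2)
      (fun p hp => ?_) (fun p hp => ?_)
    · have e : ⌊2 * p.1⌋ = k.1 := congrArg Prod.fst (mem_filter.1 hp).2
      have e1 := Int.floor_le (2 * p.1)
      have e2 := Int.lt_floor_add_one (2 * p.1)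
      rw [e] at e1 e2
      constructor <;> linarith
    · have e : ⌊2 * p.2⌋ = k.2 := congrArg Prod.snd (mem_filter.1 hp).2
      have e1 := Int.floor_le (2 * p.2)
      have e2 := Int.lt_floor_add_one (2 * p.2)
      rw [e] at e1 e2
      constructor <;> linarith
  choose c hc using hc
  refine ⟨fun p => c (cell p) p, fun a b A hA hcard => ?_⟩
  obtain ⟨k, -, hk⟩ := exists_le_card_fiber_of_mul_le_card_of_maps_to (s := A)
    (t := Icc (⌊2 * a⌋ - 2) (⌊2 * a⌋ + 2) ×ˢ Icc ⌊2 * b⌋ (⌊2 * b⌋ + 2)) (f := cell) (n := 171600)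
    (by
      intro p hp
      obtain ⟨-, p2, p3⟩ := (hA p).1 hp
      have e1 : p.1 - a ≤ 1 := by nlinarith [sq_nonneg (p.2 - b)]
      have e2 : -1 ≤ p.1 - a := by nlinarith [sq_nonneg (p.2 - b)]
      have e3 : p.2 - b ≤ 1 := by nlinarith [sq_nonneg (p.1 - a)]
      have f1 : ⌊2 * a - 2⌋ ≤ ⌊2 * p.1⌋ := Int.floor_mono (by linarith)
      have f2 : ⌊2 * p.1⌋ ≤ ⌊2 * a + 2⌋ := Int.floor_mono (by linarith)
      have f3 : ⌊2 * b⌋ ≤ ⌊2 * p.2⌋ := Int.floor_mono (by linarith)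
      have f4 : ⌊2 * p.2⌋ ≤ ⌊2 * b + 2⌋ := Int.floor_mono (by linarith)
      rw [Int.floor_sub_ofNat] at f1
      rw [Int.floor_add_ofNat] at f2 f4
      exact mem_product.2 ⟨mem_Icc.2 ⟨f1, f2⟩, mem_Icc.2 ⟨f3, f4⟩⟩)
    ⟨(⌊2 * a⌋, ⌊2 * b⌋), mem_product.2 ⟨mem_Icc.2 ⟨by simp, by simp⟩, mem_Icc.2 ⟨by simp, by simp⟩⟩⟩
    (by
      rw [card_product, Int.card_Icc, Int.card_Icc]
      have e1 : (⌊2 * a⌋ + 2 + 1 - (⌊2 * a⌋ - 2)).toNat = 5 := by omega
      have e2 : (⌊2 * b⌋ + 2 + 1 - ⌊2 * b⌋).toNat = 3 := by omega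
      rw [e1, e2]
      omega)
  obtain ⟨p, hp, q, hq, h⟩ := hc k a b (A.filter (fun p => cell p = k)) (fun p => by
    simp only [mem_filter, hA]
    tauto) hk
  obtain ⟨p1, p2⟩ := mem_filter.1 hp
  obtain ⟨q1, q2⟩ := mem_filter.1 hq
  refine ⟨p, p1, q, q1, ?_⟩
  simp only [p2, q2]
  exact h

end Pool.Agent.H254Z.HD
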