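import Pool.Agent.H254Z.HD.Abstract

/-!
Traces of translates of the half-disk on a point set lying in a small cell.
-/

set_option autoImplicit false

namespace Pool.Agent.H254Z.HD

open Finset

theorem lemX {aK bK aG bG xg yg xt yt : ℝ} (h1 : aK ≤ xg) (h2 : bG < bK) (h3 : bK ≤ yt)
    (h4 : xg ≤ xt) (h5 : yt ≤ yg) (g1 : (xg - aG) ^ 2 + (yg - bG) ^ 2 ≤ 1)
    (g2 : 1 ≤ (xg - aK) ^ 2 + (yg - bK) ^ 2) (g3 : (xt - aK) ^ 2 + (yt - bK) ^ 2 ≤ 1)
    (g4 : 1 ≤ (xt - aG) ^ 2 + (yt - bG) ^ 2) : xg = xt ∧ yg = yt := by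
  have e1 : (yg - bK) ^ 2 < (yg - bG) ^ 2 := by nlinarith
  have e2 : (xg - aG) ^ 2 < (xg - aK) ^ 2 := by linarith
  have e3 : aK < aG := by
    by_contra hc
    have : aG ≤ aK := not_lt.1 hc
    nlinarith
  have e4 : 0 ≤ (aG - aK) * (xg - xt) + (bG - bK) * (yg - yt) := by nlinarith
  have e5 : (aG - aK) * (xg - xt) ≤ 0 := mul_nonpos_of_nonneg_of_nonpos (by linarith) (by linarith)
  have e6 : (bG - bK) * (yg - yt) ≤ 0 := mul_nonpos_of_nonpos_of_nonneg (by linarith) (by linarith)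
  have e7 : (aG - aK) * (xg - xt) = 0 := by linarith
  have e8 : (bG - bK) * (yg - yt) = 0 := by linarith
  rcases mul_eq_zero.1 e7 with h | h
  · linarith
  rcases mul_eq_zero.1 e8 with h' | h'
  · linarith
  exact ⟨by linarith, by linarith⟩

theorem lemConv {v e d s t w : ℝ} (he : 0 < e) (hd : 0 < d) (hs : 0 ≤ s) (ht : 0 ≤ t)
    (hw : 0 ≤ w) (h1 : (v + e + d) ^ 2 + s ^ 2 ≤ 1) (h2 : v ^ 2 + t ^ 2 ≤ 1)
    (h3 : 1 ≤ (v + e) ^ 2 + w ^ 2) : d * t + e * s < (e + d) * w := by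
  have hL : 0 < e + d := by linarith
  have k1 : ((e + d) * (v + e)) ^ 2 + (d * t + e * s) ^ 2 =
      (e + d) * (d * (v ^ 2 + t ^ 2) + e * ((v + e + d) ^ 2 + s ^ 2))
        - d * e * ((e + d) ^ 2 + (s - t) ^ 2) := by ring
  have k2 : d * (v ^ 2 + t ^ 2) + e * ((v + e + d) ^ 2 + s ^ 2) ≤ e + d := by nlinarith
  have k3 : 0 < d * e * ((e + d) ^ 2 + (s - t) ^ 2) := by positivity
  have k4 : (e + d) * (d * (v ^ 2 + t ^ 2) + e * ((v + e + d) ^ 2 + s ^ 2)) ≤ (e + d) * (e + d) :=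
    mul_le_mul_of_nonneg_left k2 hL.le
  have k5 : (e + d) ^ 2 * 1 ≤ (e + d) ^ 2 * ((v + e) ^ 2 + w ^ 2) :=
    mul_le_mul_of_nonneg_left h3 (by positivity)
  have k6 : (d * t + e * s) ^ 2 < ((e + d) * w) ^ 2 := by nlinarith
  exact lt_of_pow_lt_pow_left₀ 2 (by positivity) k6

theorem lemG {a b a' b' xp yp xq yq : ℝ} (h0 : a < a') (h1 : xq ≤ xp) (h2 : b ≤ yp) (h3 : b ≤ yq)
    (h4 : b' ≤ yp) (h5 : b' ≤ yq) (g1 : (xp - a) ^ 2 + (yp - b) ^ 2 ≤ 1)
    (g2 : 1 ≤ (xp - a') ^ 2 + (yp - b') ^ 2) (g3 : (xq - a') ^ 2 + (yq - b') ^ 2 ≤ 1)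
    (g4 : 1 ≤ (xq - a) ^ 2 + (yq - b) ^ 2) : xp = xq ∧ yp = yq := by
  rcases h1.lt_or_eq with h | h
  · exfalso
    have A := lemConv (v := xq - a') (e := xp - xq) (d := a' - a) (s := yp - b) (t := yq - b')
      (w := yp - b') (by linarith) (by linarith) (by linarith) (by linarith) (by linarith)
      (by convert g1 using 3; ring) g3 (by convert g2 using 3; ring)
    have B := lemConv (v := xq - a') (e := a' - a) (d := xp - xq) (s := yp - b) (t := yq - b')
      (w := yq - b) (by linarith) (by linarith) (by linarith) (by linarith) (by linarith)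
      (by convert g1 using 3; ring) g3 (by convert g4 using 3; ring)
    nlinarith
  · subst h
    refine ⟨rfl, le_antisymm ?_ ?_⟩
    · by_contra hc
      have : yq < yp := not_le.1 hc
      nlinarith
    · by_contra hc
      have : yp < yq := not_le.1 hc
      nlinarith

variable {α : Type} [DecidableEq α]

/-- A family of `n`-element traces of translated half-disks on `P`, one for each centre used. -/
structure Fam (P : Finset α) (X Y : α → ℝ) (n : ℕ) where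
  ι : Type
  a : ι → ℝ
  b : ι → ℝ
  T : ι → Finset α
  func : ∀ i j, a i = a j → b i = b j → T i = T j
  sub : ∀ i, ∀ p ∈ T i, p ∈ P ∧ b i ≤ Y p ∧ (X p - a i) ^ 2 + (Y p - b i) ^ 2 ≤ 1
  sup : ∀ i, ∀ p ∈ P, b i ≤ Y p → (X p - a i) ^ 2 + (Y p - b i) ^ 2 < 1 → p ∈ T i
  card : ∀ i, (T i).card = n

variable {P : Finset α} {X X' Y : α → ℝ} {n f g : ℕ} {y0 : ℝ}

/-- Reflection in a vertical line. -/
def Fam.mirror (F : Fam P X Y n) (hX : ∀ p, X' p = -X p) : Fam P X' Y n where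
  ι := F.ι
  a := fun i => -F.a i
  b := F.b
  T := F.T
  func := fun i j h1 h2 => F.func i j (neg_injective h1) h2
  sub := fun i p hp => ⟨(F.sub i p hp).1, (F.sub i p hp).2.1, by
    have := (F.sub i p hp).2.2
    rw [hX]; linarith⟩
  sup := fun i p hp h1 h2 => F.sup i p hp h1 (by rw [hX] at h2; linarith)
  card := F.card

omit [DecidableEq α] in
theorem Fam.out (F : Fam P X Y n) {i : F.ι} {p : α} (hp : p ∈ P) (h1 : F.b i ≤ Y p)
    (h2 : p ∉ F.T i) : 1 ≤ (X p - F.a i) ^ 2 + (Y p - F.b i) ^ 2 :=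
  not_lt.1 fun h => h2 (F.sup i p hp h1 h)

/-- Corner type: the centre is left of all points and above the bottom of the cell. -/
def Fam.IsF (F : Fam P X Y n) (y0 : ℝ) : Prop := ∀ i, y0 < F.b i ∧ ∀ p ∈ P, F.a i ≤ X p

/-- Arc type: the centre is below the cell. -/
def Fam.IsG (G : Fam P X Y n) (y0 : ℝ) : Prop := ∀ i, G.b i ≤ y0

/-- lexicographic key -/
def key (U V : α → ℝ) (p : α) : Lex (ℝ × ℝ) := toLex (U p, V p)

omit [DecidableEq α] in
theorem key_lt {U V : α → ℝ} {p q : α} (h : key U V p < key U V q) :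
    U p < U q ∨ (U p = U q ∧ V p < V q) := by
  simpa [key, Prod.Lex.lt_iff] using h

omit [DecidableEq α] in
theorem key_le {U V : α → ℝ} {p q : α} (h : key U V p < key U V q) : U p ≤ U q := by
  rcases key_lt h with h | h
  · exact h.le
  · exact h.1.le

omit [DecidableEq α] in
theorem key_inj {U V : α → ℝ} (h : ∀ p q, U p = U q → V p = V q → p = q) :
    Function.Injective (key U V) := by
  intro p q e
  have e' : (U p, V p) = (U q, V q) := toLex.injective e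
  exact h p q (congrArg Prod.fst e') (congrArg Prod.snd e')

omit [DecidableEq α] in
/-- dominance for corner ranges -/
theorem Fam.domF (hinj : ∀ p q, X p = X q → Y p = Y q → p = q) (F : Fam P X Y n) (hF : F.IsF y0)
    {i : F.ι} {p q : α} (hp : p ∈ F.T i) (hq : q ∈ P) (h1 : X q ≤ X p) (h2 : F.b i ≤ Y q)
    (h3 : Y q ≤ Y p) : q ∈ F.T i := by
  by_contra hc
  have e1 := F.out hq h2 hc
  have e2 := (F.sub i p hp).2.2
  have e3 := (hF i).2 q hq
  have e4 : X q = X p := by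
    by_contra hne
    have : X q < X p := lt_of_le_of_ne h1 hne
    nlinarith
  have e5 : Y q = Y p := by
    by_contra hne
    have : Y q < Y p := lt_of_le_of_ne h3 hne
    rw [e4] at e1
    nlinarith
  exact hc (hinj _ _ e4 e5 ▸ hp)

omit [DecidableEq α] in
theorem Fam.sepF (hinj : ∀ p q, X p = X q → Y p = Y q → p = q) (F : Fam P X Y n) (hF : F.IsF y0)
    {i j : F.ι} (hb : F.b i < F.b j) {p q : α} (hp : p ∈ F.T i) (hp' : p ∉ F.T j)
    (hq : q ∈ F.T j) (hq' : q ∉ F.T i) (h : Y q ≤ Y p) : False := by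
  obtain ⟨p1, p2, p3⟩ := F.sub i p hp
  obtain ⟨q1, q2, q3⟩ := F.sub j q hq
  have e1 := F.out p1 (q2.trans h) hp'
  have e2 := F.out q1 (hb.le.trans q2) hq'
  have e3 : X p ≤ X q := by
    by_contra hc
    exact hq' (F.domF hinj hF hp q1 (not_le.1 hc).le (hb.le.trans q2) h)
  obtain ⟨e4, e5⟩ := lemX ((hF j).2 p p1) hb q2 e3 h p3 e1 q3 e2
  exact hp' (hinj _ _ e4 e5 ▸ hq)

omit [DecidableEq α] in
theorem Fam.abaF (hinj : ∀ p q, X p = X q → Y p = Y q → p = q) (F : Fam P X Y n)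
    (hF : F.IsF y0) : ABAFree (key Y X) F.T := by
  intro i j x hx y hy z hz hx' hy' hz' h1 h2
  rcases lt_trichotomy (F.b i) (F.b j) with hb | hb | hb
  · exact F.sepF hinj hF hb hz hz' hy hy' (key_le h2)
  · have aux : ∀ k l : F.ι, F.b k = F.b l → F.a k < F.a l → ∀ w ∈ F.T k, w ∈ F.T l := by
      intro k l e1 e2 w hw
      obtain ⟨w1, w2, w3⟩ := F.sub k w hw
      have := (hF l).2 w w1
      refine F.sup l w w1 (e1 ▸ w2) ?_
      rw [← e1]
      nlinarith
    rcases lt_trichotomy (F.a i) (F.a j) with ha | ha | ha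
    · exact hx' (aux i j hb ha x hx)
    · exact hx' (F.func i j ha hb ▸ hx)
    · exact hy' (aux j i hb.symm ha y hy)
  · exact F.sepF hinj hF hb hy hy' hx hx' (key_le h1)

omit [DecidableEq α] in
theorem Fam.abaG (hinj : ∀ p q, X p = X q → Y p = Y q → p = q) (hy0 : ∀ p ∈ P, y0 ≤ Y p)
    (G : Fam P X Y n) (hG : G.IsG y0) : ABAFree (key X Y) G.T := by
  have sep : ∀ i j : G.ι, G.a i < G.a j → ∀ p ∈ G.T i, p ∉ G.T j → ∀ q ∈ G.T j, q ∉ G.T i →
      X q ≤ X p → False := by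
    intro i j ha p hp hp' q hq hq' h
    obtain ⟨p1, p2, p3⟩ := G.sub i p hp
    obtain ⟨q1, q2, q3⟩ := G.sub j q hq
    have p4 : G.b j ≤ Y p := (hG j).trans (hy0 p p1)
    have q4 : G.b i ≤ Y q := (hG i).trans (hy0 q q1)
    obtain ⟨e4, e5⟩ := lemG ha h p2 q4 p4 q2 p3 (G.out p1 p4 hp') q3 (G.out q1 q4 hq')
    exact hp' (hinj _ _ e4 e5 ▸ hq)
  intro i j x hx y hy z hz hx' hy' hz' h1 h2
  rcases lt_trichotomy (G.a i) (G.a j) with ha | ha | ha
  · exact sep i j ha z hz hz' y hy hy' (key_le h2)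
  · have aux : ∀ k l : G.ι, G.a k = G.a l → G.b k < G.b l → ∀ w ∈ G.T k, w ∈ G.T l := by
      intro k l e1 e2 w hw
      obtain ⟨w1, w2, w3⟩ := G.sub k w hw
      have := (hG l).trans (hy0 w w1)
      refine G.sup l w w1 this ?_
      rw [← e1]
      nlinarith
    rcases lt_trichotomy (G.b i) (G.b j) with hb | hb | hb
    · exact hx' (aux i j ha hb x hx)
    · exact hx' (G.func i j ha hb ▸ hx)
    · exact hy' (aux j i ha.symm hb y hy)
  · exact sep j i ha y hy hy' x hx hx' (key_le h1)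

omit [DecidableEq α] in
/-- A point of an arc range, up and to the left of a point of a corner range. -/
theorem cross (hy0 : ∀ p ∈ P, y0 ≤ Y p) (F : Fam P X Y f) (hF : F.IsF y0) (G : Fam P X Y g)
    (hG : G.IsG y0) {i : F.ι} {j : G.ι} {w t : α} (hw : w ∈ G.T j) (hw' : w ∉ F.T i)
    (ht : t ∈ F.T i) (ht' : t ∉ G.T j) (h1 : X w ≤ X t) (h2 : Y t < Y w) : False := by
  obtain ⟨w1, w2, w3⟩ := G.sub j w hw
  obtain ⟨t1, t2, t3⟩ := F.sub i t ht
  have := lemX ((hF i).2 w w1) (lt_of_le_of_lt (hG j) (hF i).1) t2 h1 h2.le w3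
    (F.out w1 (t2.trans h2.le) hw') t3 (G.out t1 ((hG j).trans (hy0 t t1)) ht')
  linarith [this.2]

open Classical in
/-- `t` is far above the bottom of some corner range containing it. -/
def Fam.gam (F : Fam P X Y n) (M : ℕ) (t : α) : Prop :=
  ∃ i, t ∈ F.T i ∧ M < (P.filter (fun q => F.b i ≤ Y q ∧ Y q ≤ Y t)).card

open Classical in
/-- many points lie below a corner range containing `t`, to the right of `t`. -/
def Fam.alph (F : Fam P X Y n) (M : ℕ) (t : α) : Prop :=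
  ∃ i, t ∈ F.T i ∧ ∃ u ∈ F.T i,
    M < (P.filter (fun q => X t ≤ X q ∧ X q ≤ X u ∧ Y q < F.b i)).card

open Classical in
/-- many points lie above `t` and left of the apex of an arc range containing `t`. -/
def Fam.bet (G : Fam P X Y n) (M : ℕ) (t : α) : Prop :=
  ∃ i, t ∈ G.T i ∧ M < (P.filter (fun r => Y t ≤ Y r ∧ Y r ≤ G.b i + 1 ∧ X r < G.a i)).card

theorem gam_excl (hinj : ∀ p q, X p = X q → Y p = Y q → p = q) (hX : ∀ p, X' p = -X p)
    (F : Fam P X Y f) (hF : F.IsF y0) (F' : Fam P X' Y f) (hF' : F'.IsF y0) {t : α}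
    (h : F.gam (2 * f) t) (h' : F'.gam (2 * f) t) : False := by
  classical
  have hinj' : ∀ p q, X' p = X' q → Y p = Y q → p = q := fun p q e1 e2 =>
    hinj p q (by rw [hX, hX] at e1; linarith) e2
  obtain ⟨i, hi, hc⟩ := h
  obtain ⟨j, hj, hc'⟩ := h'
  have key : ∀ q ∈ P, F.b i ≤ Y q → F'.b j ≤ Y q → Y q ≤ Y t → q ∈ F.T i ∪ F'.T j := by
    intro q hq e1 e2 e3
    rcases le_total (X q) (X t) with e | e
    · exact mem_union_left _ (F.domF hinj hF hi hq e e1 e3)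
    · exact mem_union_right _ (F'.domF hinj' hF' hj hq (by rw [hX, hX]; linarith) e2 e3)
  have hcard : (F.T i ∪ F'.T j).card ≤ 2 * f := by
    have := card_union_le (F.T i) (F'.T j)
    rw [F.card, F'.card] at this
    omega
  rcases le_total (F.b i) (F'.b j) with e | e
  · refine absurd hc' (not_lt.2 (le_trans (card_le_card fun q hq => ?_) hcard))
    obtain ⟨q1, q2, q3⟩ := mem_filter.1 hq
    exact key q q1 (e.trans q2) q2 q3
  · refine absurd hc (not_lt.2 (le_trans (card_le_card fun q hq => ?_) hcard))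
    obtain ⟨q1, q2, q3⟩ := mem_filter.1 hq
    exact key q q1 q2 (e.trans q2) q3

omit [DecidableEq α] in
theorem alph_bet_excl (hinj : ∀ p q, X p = X q → Y p = Y q → p = q) (hy0 : ∀ p ∈ P, y0 ≤ Y p)
    (F : Fam P X Y f) (hF : F.IsF y0) (G : Fam P X Y g) (hG : G.IsG y0) {t : α}
    (h : F.alph g t) (h' : G.bet f t) : False := by
  classical
  obtain ⟨i, hi, u, hu, hc⟩ := h
  obtain ⟨j, hj, hc'⟩ := h'
  rw [← G.card j] at hc
  rw [← F.card i] at hc'
  obtain ⟨q, hq, hq'⟩ := exists_mem_notMem_of_card_lt_card hc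
  obtain ⟨r, hr, hr'⟩ := exists_mem_notMem_of_card_lt_card hc'
  obtain ⟨q1, q2, q3, q4⟩ := mem_filter.1 hq
  obtain ⟨r1, r2, r3, r4⟩ := mem_filter.1 hr
  obtain ⟨t1, t2, t3⟩ := F.sub i t hi
  obtain ⟨-, -, t5⟩ := G.sub j t hj
  obtain ⟨u1, u2, u3⟩ := F.sub i u hu
  have q5 : G.b j ≤ Y q := (hG j).trans (hy0 q q1)
  have q6 := G.out q1 q5 hq'
  have e1 : G.a j < X q := by
    by_contra hcon
    have e : X q ≤ G.a j := not_lt.1 hcon
    nlinarith
  have e2 : Y u < Y r := by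
    by_contra hcon
    exact hr' (F.domF hinj hF hu r1 (by linarith) (t2.trans r2) (not_lt.1 hcon))
  have r5 := F.out r1 (t2.trans r2) hr'
  have r6 := (hF i).2 r r1
  have r7 : G.b j ≤ Y r := (hG j).trans (hy0 r r1)
  have := lemX (aK := F.a i) (bK := F.b i) (aG := G.a j) (bG := G.b j) (xg := G.a j) (yg := Y r)
    (xt := X u) (yt := Y u) (by linarith) (lt_of_le_of_lt (hG j) (hF i).1) u2 (by linarith) e2.le
    (by nlinarith) (by nlinarith) u3 (by nlinarith)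
  linarith [this.2]

omit [DecidableEq α] in
theorem short_gam (F : Fam P X Y f) (F' : Fam P X' Y f) {W : Finset α} {M M' : ℕ} (hM : M' ≤ M)
    (hW : ∀ t ∈ W, ¬ F'.gam M' t) (j : F'.ι) : Short (key Y X) F.T W M (F'.T j) := by
  classical
  intro lo hlo _ hi hhi hhiW
  refine ⟨P.filter (fun q => F'.b j ≤ Y q ∧ Y q ≤ Y hi), ?_, ?_⟩
  · by_contra hc
    exact hW hi hhiW ⟨j, hhi, by omega⟩
  · intro k _ _ b hb h1 h2
    exact mem_filter.2 ⟨(F.sub k b hb).1, (F'.sub j lo hlo).2.1.trans (key_le h1), key_le h2⟩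

theorem short_alph (hinj : ∀ p q, X p = X q → Y p = Y q → p = q) (hy0 : ∀ p ∈ P, y0 ≤ Y p)
    (F : Fam P X Y f) (hF : F.IsF y0) (G : Fam P X Y g) (hG : G.IsG y0) {W : Finset α} {M : ℕ}
    (hM : f + g ≤ M) (hW : ∀ t ∈ W, ¬ F.alph g t) (i : F.ι) :
    Short (key X Y) G.T W M (F.T i) := by
  classical
  intro lo hlo hloW hi hhi _
  refine ⟨F.T i ∪ P.filter (fun q => X lo ≤ X q ∧ X q ≤ X hi ∧ Y q < F.b i), ?_, ?_⟩
  · have e1 := card_union_le (F.T i) (P.filter (fun q => X lo ≤ X q ∧ X q ≤ X hi ∧ Y q < F.b i))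
    have e2 : (P.filter (fun q => X lo ≤ X q ∧ X q ≤ X hi ∧ Y q < F.b i)).card ≤ g := by
      by_contra hc
      exact hW lo hloW ⟨i, hlo, hi, hhi, by omega⟩
    rw [F.card] at e1
    omega
  · intro k _ hk b hb h1 h2
    have b1 := (G.sub k b hb).1
    by_cases hbi : b ∈ F.T i
    · exact mem_union_left _ hbi
    refine mem_union_right _ (mem_filter.2 ⟨b1, key_le h1, key_le h2, ?_⟩)
    by_contra hc
    rcases le_or_gt (Y b) (Y hi) with e | e
    · exact hbi (F.domF hinj hF hhi b1 (key_le h2) (not_lt.1 hc) e)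
    · exact cross hy0 F hF G hG hb hbi hhi hk (key_le h2) e

theorem short_bet (hinj : ∀ p q, X p = X q → Y p = Y q → p = q) (hy0 : ∀ p ∈ P, y0 ≤ Y p)
    (F : Fam P X Y f) (hF : F.IsF y0) (G : Fam P X Y g) (hG : G.IsG y0) {W : Finset α} {M : ℕ}
    (hM : f + g ≤ M) (hW : ∀ t ∈ W, ¬ G.bet f t) (j : G.ι) :
    Short (key Y X) F.T W M (G.T j) := by
  classical
  intro lo hlo hloW hi hhi _
  refine ⟨G.T j ∪ P.filter (fun r => Y lo ≤ Y r ∧ Y r ≤ G.b j + 1 ∧ X r < G.a j), ?_, ?_⟩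
  · have e1 := card_union_le (G.T j)
      (P.filter (fun r => Y lo ≤ Y r ∧ Y r ≤ G.b j + 1 ∧ X r < G.a j))
    have e2 : (P.filter (fun r => Y lo ≤ Y r ∧ Y r ≤ G.b j + 1 ∧ X r < G.a j)).card ≤ f := by
      by_contra hc
      exact hW lo hloW ⟨j, hlo, by omega⟩
    rw [G.card] at e1
    omega
  · intro k _ hk b hb h1 h2
    have b1 := (F.sub k b hb).1
    by_cases hbj : b ∈ G.T j
    · exact mem_union_left _ hbj
    obtain ⟨i1, i2, i3⟩ := G.sub j hi hhi
    have b2 : G.b j ≤ Y b := (hG j).trans (hy0 b b1)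
    have b3 : Y b ≤ Y hi := key_le h2
    refine mem_union_right _ (mem_filter.2 ⟨b1, key_le h1, by nlinarith, ?_⟩)
    by_contra hc
    have hc' : G.a j ≤ X b := not_lt.1 hc
    have b4 := G.out b1 b2 hbj
    rcases key_lt h2 with e | ⟨e, e'⟩
    · rcases le_total (X hi) (X b) with e' | e'
      · exact cross hy0 F hF G hG hhi hk hb hbj e' e
      · nlinarith
    · rw [e] at b4
      nlinarith

theorem lowZ (hinj : ∀ p q, X p = X q → Y p = Y q → p = q) (hX : ∀ p, X' p = -X p)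
    (hy0 : ∀ p ∈ P, y0 ≤ Y p)
    (F : Fam P X Y f) (hF : F.IsF y0) (F' : Fam P X' Y f) (hF' : F'.IsF y0)
    (G : Fam P X Y g) (hG : G.IsG y0) {W : Finset α} {u : α}
    (hu : (∃ i, u ∈ F.T i) ∧ ∃ i, u ∈ F'.T i) (hmin : ∀ w ∈ W, Y u ≤ Y w) (j : G.ι)
    (hj : 2 * f < (G.T j ∩ W).card) : u ∈ G.T j := by
  have hinj' : ∀ p q, X' p = X' q → Y p = Y q → p = q := fun p q e1 e2 =>
    hinj p q (by rw [hX, hX] at e1; linarith) e2
  obtain ⟨⟨i, hi⟩, i', hi'⟩ := hu
  by_contra hc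
  have hcard : (F.T i ∪ F'.T i').card ≤ 2 * f := by
    have := card_union_le (F.T i) (F'.T i')
    rw [F.card, F'.card] at this
    omega
  refine absurd hj (not_lt.2 (le_trans (card_le_card fun w hw => ?_) hcard))
  obtain ⟨w1, w2⟩ := mem_inter.1 hw
  have w3 := (G.sub j w w1).1
  by_contra hcon
  have c1 : w ∉ F.T i := fun h => hcon (mem_union_left _ h)
  have c2 : w ∉ F'.T i' := fun h => hcon (mem_union_right _ h)
  rcases (hmin w w2).lt_or_eq with e | e
  · rcases le_total (X w) (X u) with e' | e'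
    · exact cross hy0 F hF G hG w1 c1 hi hc e' e
    · exact cross hy0 F' hF' (G.mirror hX) hG (i := i') (j := j) w1 c2 hi' hc
        (by rw [hX, hX]; linarith) e
  · rcases le_total (X w) (X u) with e' | e'
    · exact c1 (F.domF hinj hF hi w3 e' (e ▸ (F.sub i u hi).2.1) e.ge)
    · exact c2 (F'.domF hinj' hF' hi' w3 (by rw [hX, hX]; linarith)
        (e ▸ (F'.sub i' u hi').2.1) e.ge)

end Pool.Agent.H254Z.HD
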